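import Pool.Agent.N569.VT.Typ

/-!
Project VU (helper569), part VU2 (helper681): the writhe for arbitrary directions of the strands.
-/

set_option autoImplicit false

namespace Pool.Agent.N681.VU

open Pool.Agent.H891R2.Jones Pool.Agent.W639.RB Pool.Agent.TH561 Pool.Agent.N569.TW Pool.Agent.N569.VT
  Finset LaurentPolynomial

variable {m : ℕ}

theorem owr_draw (W : List (Bool × ℕ)) : ∀ (O O' : Outer m), pat O.up = pat O'.up →
    (∀ x ∈ W, x.2 + 1 < m) → owr (draw O W) - owr O = owr (draw O' W) - owr O' := by
  induction W with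
  | nil => intro O O' _ _; simp [draw]
  | cons x W ih =>
    intro O O' h hW
    have h3 := hW x List.mem_cons_self
    obtain ⟨h4, h5⟩ := push_writhe O x.1 x.2 h3
    obtain ⟨h4', h5'⟩ := push_writhe O' x.1 x.2 h3
    have h6 := ih (O.push x.1 x.2) (O'.push x.1 x.2) (by rw [h5, h5', h])
      (fun y hy => hW y (List.mem_cons_of_mem _ hy))
    have h7 : draw O (x :: W) = draw (O.push x.1 x.2) W := rfl
    have h8 : draw O' (x :: W) = draw (O'.push x.1 x.2) W := rfl
    rw [h7, h8]
    rw [h4, h4', h] at h6
    linarith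

/-- VU2 -/
theorem writhe_up (O O' : Outer m) (h : O.up = O'.up) (W : List (Bool × ℕ)) (hW : ∀ x ∈ W, x.2 + 1 < m) :
    (draw O W).close.writhe - O.close.writhe = (draw O' W).close.writhe - O'.close.writhe := by
  rw [close_writhe, close_writhe, close_writhe, close_writhe]
  exact owr_draw W O O' (by rw [h]) hW

end Pool.Agent.N681.VU
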